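import Pool.Agent.Lib_MP_89a37c.Roots

/-! The recurrence polynomial of the T-system of the affine quiver of type E6 at the central
vertex has non-real roots at every positive real point. -/

namespace Pool.Agent.Results.MP_89a37c_co.NonRealRoots

open Pool.Agent.Lib_MP_89a37c

/-- The assertion of the question is false. In fact there is an affine-finite quiver with seven
vertices and a vertex `v` of it at which minimal recurrences exist, such that for every minimal
recurrence at `v` and every positive real point the coefficients are defined there and the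
specialised recurrence polynomial has a non-real root. -/
theorem result :
    ¬ AllRootsPositive ∧
    ∃ Q : BQuiver (Fin 7), Q.AffineFinite ∧ (∃ T, IsTSystem Q T) ∧
      ∃ v : Fin 7, ∀ T : Fin 7 → ℤ → RatFun (Fin 7), IsTSystem Q T →
        (∃ (i N : ℕ) (J : ℕ → RatFun (Fin 7)), IsMinimalRecurrence Q T v i N J) ∧
        ∀ (i N : ℕ) (J : ℕ → RatFun (Fin 7)), IsMinimalRecurrence Q T v i N J →
          ∀ x : Fin 7 → ℝ, (∀ u, 0 < x u) →
            ∃ y : ℕ → ℝ, (∀ k ≤ N + 1, HasValue (J k) x (y k)) ∧
              ∃ z : ℂ, IsRoot N y z ∧ z.im ≠ 0 := by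
  refine ⟨?_, e6, e6_affineFinite, exists_tsystem e6, 3, fun T hT =>
    ⟨⟨4, 7, _, isMinimal hT⟩, fun i N J h x hx => main_roots hT h hx⟩⟩
  intro h
  obtain ⟨T, hT⟩ := exists_tsystem e6
  obtain ⟨y, hy, z, hz, him⟩ := main_roots hT (isMinimal hT) (x := fun _ => 1)
    (fun _ => one_pos)
  obtain ⟨r, -, hr⟩ := h (Fin 7) e6 e6_affineFinite T hT 3 4 7 _ (isMinimal hT)
    (fun _ => 1) (fun _ => one_pos) y hy z hz
  apply him
  rw [hr]
  exact Complex.ofReal_im r

end Pool.Agent.Results.MP_89a37c_co.NonRealRoots
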